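import Pool.Agent.X154.SolL

set_option autoImplicit false

/-!
For the fixed metric `g = e^(2t) dx² + e^(-2t) dy² + dt² + ds²` on `ℝ⁴` (a left invariant metric of
`Sol³ × ℝ`, with `Ric ≥ -2 g`), for every `V > 0` and every `N` there is a closed quotient of volume
`V` whose first positive Laplace eigenvalue has multiplicity at least `N`.
-/

namespace Pool.Agent.Results.MP_416086_gt.SolMultiplicity

open Pool.Agent.X154.SolM

theorem result :
    IsMetric solMetric ∧
    (∀ x v : Fin 4 → ℝ, -2 * inner solMetric x v v ≤ ∑ i, ∑ j, ricci solMetric i j x * v i * v j) ∧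
    ∀ V : ℝ, 0 < V → ∀ N : ℕ, ∃ Γ : Subgroup (Equiv.Perm (Fin 4 → ℝ)),
      IsClosedQuotient solMetric Γ ∧ HasVolume solMetric Γ V ∧
      ∃ lam : ℝ, 0 < lam ∧
        (∀ μ, 0 < μ → μ < lam → ∀ f, Eigen solMetric Γ μ f → f = 0) ∧
        ∃ f : Fin N → (Fin 4 → ℝ) → ℝ, LinearIndependent ℝ f ∧ ∀ i, Eigen solMetric Γ lam (f i) :=
  ⟨isMetric_sol, ric_sol, main⟩

end Pool.Agent.Results.MP_416086_gt.SolMultiplicity
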